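import Pool.Agent.helper60.AVK.SpecD

/-! # AVK: row PK3 -/

namespace Pool.Agent.helper60.AVK

open MeasureTheory Matrix

theorem PK3_tau : tau 1 1 1 = ⟨-(1 / 2), Real.sqrt 3 / 2⟩ := by
  have hd : dsc 1 1 1 = 3 := by unfold dsc; norm_num
  unfold tau
  rw [hd]
  apply Complex.ext
  · simp
    norm_num
  · simp

theorem PK3_tau2 : tau 1 1 1 * tau 1 1 1 = -1 - tau 1 1 1 := by
  have h := tau_rel h111
  push_cast at h
  linear_combination h

theorem PK3_re (m n : ℝ) : ((m : ℂ) + n * tau 1 1 1).re = m - n / 2 := by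
  rw [PK3_tau]; simp; ring

theorem PK3_im (m n : ℝ) : ((m : ℂ) + n * tau 1 1 1).im = n * (Real.sqrt 3 / 2) := by
  rw [PK3_tau]; simp

/-- distance to the lattice -/
theorem PK3_dist (x y : ℝ) (hx : |x| ≤ 1 / 2) (hy : |y| ≤ Real.sqrt 3 / 4) (i j : ℤ) :
    3 / 4 * x ^ 2 ≤ (x - (i - j / 2)) ^ 2 + (y - j * (Real.sqrt 3 / 2)) ^ 2 := by
  have h3 : Real.sqrt 3 ^ 2 = 3 := Real.sq_sqrt (by norm_num)
  have h3p : 0 < Real.sqrt 3 := Real.sqrt_pos.2 (by norm_num)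
  obtain ⟨hx1, hx2⟩ := abs_le.1 hx
  obtain ⟨hy1, hy2⟩ := abs_le.1 hy
  have hxx : x ^ 2 ≤ 1 / 4 := by nlinarith
  rcases lt_trichotomy j 0 with hj | hj | hj
  · have hj' : (j : ℝ) ≤ -1 := by exact_mod_cast (by omega : j ≤ -1)
    rcases lt_or_eq_of_le (by omega : j ≤ -1) with h | h
    · have hj2 : (j : ℝ) ≤ -2 := by exact_mod_cast (by omega : j ≤ -2)
      have h1 : 3 / 4 * Real.sqrt 3 ≤ y - j * (Real.sqrt 3 / 2) := by nlinarith
      have h2 : (3 / 4 * Real.sqrt 3) ^ 2 ≤ (y - j * (Real.sqrt 3 / 2)) ^ 2 := pow_le_pow_left₀ (by positivity) h1 2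
      nlinarith [sq_nonneg (x - (i - j / 2))]
    · subst h
      have h1 : Real.sqrt 3 / 4 ≤ y - ((-1 : ℤ) : ℝ) * (Real.sqrt 3 / 2) := by push_cast; linarith
      have h2 : (Real.sqrt 3 / 4) ^ 2 ≤ (y - ((-1 : ℤ) : ℝ) * (Real.sqrt 3 / 2)) ^ 2 := pow_le_pow_left₀ (by positivity) h1 2
      have h4 : 3 / 4 * x ^ 2 - 3 / 16 ≤ (x - (i - ((-1 : ℤ) : ℝ) / 2)) ^ 2 := by
        push_cast
        rcases le_or_gt 0 i with hi | hi
        · have hi' : (0 : ℝ) ≤ i := by exact_mod_cast hi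
          nlinarith [mul_nonneg (sub_nonneg.2 hx2) (sub_nonneg.2 hx2), mul_nonneg hi' (by linarith : (0 : ℝ) ≤ 1 / 2 - x)]
        · have hi' : (i : ℝ) ≤ -1 := by exact_mod_cast (by omega : i ≤ -1)
          nlinarith [mul_nonneg (by linarith : (0 : ℝ) ≤ -1 - i) (by linarith : (0 : ℝ) ≤ x + 1 / 2)]
      nlinarith
  · subst hj
    have h4 : x ^ 2 ≤ (x - (i - ((0 : ℤ) : ℝ) / 2)) ^ 2 := by
      push_cast
      rcases lt_trichotomy i 0 with hi | hi | hi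
      · have hi' : (i : ℝ) ≤ -1 := by exact_mod_cast (by omega : i ≤ -1)
        nlinarith
      · subst hi; simp
      · have hi' : (1 : ℝ) ≤ i := by exact_mod_cast (by omega : 1 ≤ i)
        nlinarith
    nlinarith [sq_nonneg (y - ((0 : ℤ) : ℝ) * (Real.sqrt 3 / 2)), sq_nonneg x]
  · have hj' : (1 : ℝ) ≤ j := by exact_mod_cast (by omega : 1 ≤ j)
    rcases lt_or_eq_of_le (by omega : 1 ≤ j) with h | h
    · have hj2 : (2 : ℝ) ≤ j := by exact_mod_cast (by omega : 2 ≤ j)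
      have h1 : 3 / 4 * Real.sqrt 3 ≤ -(y - j * (Real.sqrt 3 / 2)) := by nlinarith
      have h2 : (3 / 4 * Real.sqrt 3) ^ 2 ≤ (-(y - j * (Real.sqrt 3 / 2))) ^ 2 := pow_le_pow_left₀ (by positivity) h1 2
      nlinarith [sq_nonneg (x - (i - j / 2))]
    · subst h
      have h1 : Real.sqrt 3 / 4 ≤ -(y - ((1 : ℤ) : ℝ) * (Real.sqrt 3 / 2)) := by push_cast; linarith
      have h2 : (Real.sqrt 3 / 4) ^ 2 ≤ (-(y - ((1 : ℤ) : ℝ) * (Real.sqrt 3 / 2))) ^ 2 := pow_le_pow_left₀ (by positivity) h1 2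
      have h4 : 3 / 4 * x ^ 2 - 3 / 16 ≤ (x - (i - ((1 : ℤ) : ℝ) / 2)) ^ 2 := by
        push_cast
        rcases le_or_gt i 0 with hi | hi
        · have hi' : (i : ℝ) ≤ 0 := by exact_mod_cast hi
          nlinarith [mul_nonneg (by linarith : (0 : ℝ) ≤ - i) (by linarith : (0 : ℝ) ≤ x + 1 / 2)]
        · have hi' : (1 : ℝ) ≤ i := by exact_mod_cast (by omega : 1 ≤ i)
          nlinarith [mul_nonneg (by linarith : (0 : ℝ) ≤ i - 1) (by linarith : (0 : ℝ) ≤ 1 / 2 - x)]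
      nlinarith

/-- for points of `A3` the denominators of elements that do not fix infinity are greater than one -/
theorem PK3_den (y : H3) (hy : y ∈ A3) (g : SL) (hg : g ∈ GT h111) (hr : g 1 0 ≠ 0) : 1 < den g y := by
  obtain ⟨-, -, ⟨m, n, hr'⟩, ⟨m', n', hs'⟩⟩ := hg
  obtain ⟨⟨hx1, hx2, hy1, hy2⟩, ht⟩ := hy
  have h3 : Real.sqrt 3 ^ 2 = 3 := Real.sq_sqrt (by norm_num)
  have ht2 : 1 - 3 / 4 * y.z.re ^ 2 < y.t ^ 2 := (Real.sqrt_lt' y.t_pos).1 ht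
  have hxx : y.z.re ^ 2 ≤ 1 / 4 := by nlinarith
  have hnr : Complex.normSq (g 1 0) = ((m ^ 2 - m * n + n ^ 2 : ℤ) : ℝ) := by
    rw [hr', PK3_tau, Complex.normSq_apply]
    simp
    nlinarith
  have hpos : 0 < Complex.normSq (g 1 0) := Complex.normSq_pos.2 hr
  have hN : 0 < m ^ 2 - m * n + n ^ 2 := by rw [hnr] at hpos; exact_mod_cast hpos
  rcases lt_or_eq_of_le (by omega : 1 ≤ m ^ 2 - m * n + n ^ 2) with h | h
  · -- norm at least two
    have h2 : (2 : ℝ) ≤ Complex.normSq (g 1 0) := by rw [hnr]; exact_mod_cast h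
    unfold den
    have h4 := Complex.normSq_nonneg (g 1 0 * y.z + g 1 1)
    nlinarith [sq_nonneg y.t]
  · have h1 : Complex.normSq (g 1 0) = 1 := by rw [hnr, ← h]; simp
    -- `|r z + s|² = |z + s r̄|²`
    have h5 : Complex.normSq (g 1 0 * y.z + g 1 1) = Complex.normSq (y.z + g 1 1 * (starRingEnd ℂ) (g 1 0)) := by
      have h6 : g 1 0 * (y.z + g 1 1 * (starRingEnd ℂ) (g 1 0)) = g 1 0 * y.z + g 1 1 := by
        have h7 : g 1 0 * (starRingEnd ℂ) (g 1 0) = 1 := by rw [Complex.mul_conj, h1]; simp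
        linear_combination (g 1 1) * h7
      rw [← h6, map_mul, h1, one_mul]
    have hconj : (starRingEnd ℂ) (g 1 0) = m + n * tau 1 1 1 := by
      rw [hr']; simp
    have h8 : y.z + g 1 1 * (starRingEnd ℂ) (g 1 0) =
        y.z - (((-(m' * m - n' * n) : ℤ) : ℝ) + (((-(m' * n + n' * m - n' * n) : ℤ) : ℝ) : ℂ) * tau 1 1 1) := by
      rw [hconj, hs']
      push_cast
      linear_combination ((n' : ℂ) * n) * PK3_tau2
    have h9 : Complex.normSq (g 1 0 * y.z + g 1 1) = (y.z.re - ((-(m' * m - n' * n) : ℤ) - ((-(m' * n + n' * m - n' * n) : ℤ) : ℝ) / 2)) ^ 2 +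
        (y.z.im - ((-(m' * n + n' * m - n' * n) : ℤ) : ℝ) * (Real.sqrt 3 / 2)) ^ 2 := by
      rw [h5, h8, Complex.normSq_apply, Complex.sub_re, Complex.sub_im, PK3_re, PK3_im]
      ring
    have h10 := PK3_dist y.z.re y.z.im (abs_le.2 ⟨by linarith, hx2.le⟩) (abs_le.2 ⟨by linarith, hy2.le⟩)
      (-(m' * m - n' * n)) (-(m' * n + n' * m - n' * n))
    unfold den
    rw [h1, h9]
    linarith

/-- action of elements fixing infinity -/
theorem PK3_z (g : SL) (y : H3) (h : g 1 0 = 0) : (g • y).z = (g 0 0 * y.z + g 0 1) * g 0 0 := by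
  have hdet : g 0 0 * g 1 1 = 1 := by
    have := g.det_coe
    rw [Matrix.det_fin_two, h, mul_zero, sub_zero] at this
    exact this
  have h11 : g 1 1 ≠ 0 := fun h0 => by rw [h0, mul_zero] at hdet; exact zero_ne_one hdet
  show (act g y).z = _
  simp only [act, H3.of_z]
  unfold den
  rw [h]
  simp only [zero_mul, zero_add, map_zero, mul_zero, add_zero]
  rw [← Complex.mul_conj]
  have hc : (starRingEnd ℂ) (g 1 1) ≠ 0 := (map_ne_zero _).2 h11
  have h00 : g 0 0 = (g 1 1)⁻¹ := eq_inv_of_mul_eq_one_left hdet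
  rw [h00]
  field_simp

theorem PK3_mul (x y : ℂ) (hx : x ∈ Ot 1 1 1) (hy : y ∈ Ot 1 1 1) : x * y ∈ Ot 1 1 1 := by
  obtain ⟨m, n, rfl⟩ := hx
  obtain ⟨m', n', rfl⟩ := hy
  refine ⟨m * m' - n * n', m * n' + n * m' - n * n', ?_⟩
  push_cast
  linear_combination ((n : ℂ) * n') * PK3_tau2

/-- the rectangle is a fundamental cell -/
theorem PK3_cell (d : ℂ) (hd : d ∈ Ot 1 1 1) (h1 : |d.re| < 1) (h2 : |d.im| < Real.sqrt 3 / 2) : d = 0 := by
  obtain ⟨m, n, rfl⟩ := hd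
  have e : (m : ℂ) + n * (((1 : ℤ) : ℂ) * tau 1 1 1) = ((m : ℝ) : ℂ) + ((n : ℝ) : ℂ) * tau 1 1 1 := by push_cast; ring
  rw [e] at h1 h2 ⊢
  rw [PK3_re] at h1
  rw [PK3_im] at h2
  have h3p : 0 < Real.sqrt 3 := Real.sqrt_pos.2 (by norm_num)
  rw [abs_mul, abs_of_pos (by positivity : 0 < Real.sqrt 3 / 2)] at h2
  have hn : |(n : ℝ)| < 1 := by
    by_contra hcon
    push Not at hcon
    nlinarith
  have hn0 : n = 0 := by
    have : |n| < 1 := by exact_mod_cast hn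
    exact Int.abs_lt_one_iff.1 this
  subst hn0
  simp only [Int.cast_zero, zero_div, sub_zero] at h1
  have hm0 : m = 0 := by
    have : |m| < 1 := by exact_mod_cast h1
    exact Int.abs_lt_one_iff.1 this
  subst hm0
  simp

theorem PK3_neg (g : SL) (hg : g ∈ GT h111) : -g ∈ GT h111 := by
  obtain ⟨⟨p1, p2, hp⟩, ⟨q1, q2, hq⟩, ⟨r1, r2, hr⟩, ⟨s1, s2, hs⟩⟩ := hg
  refine ⟨⟨-p1, -p2, ?_⟩, ⟨-q1, -q2, ?_⟩, ⟨-r1, -r2, ?_⟩, ⟨-s1, -s2, ?_⟩⟩
  · rw [Matrix.SpecialLinearGroup.coe_neg, Matrix.neg_apply, hp]; push_cast; ring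
  · rw [Matrix.SpecialLinearGroup.coe_neg, Matrix.neg_apply, hq]; push_cast; ring
  · rw [Matrix.SpecialLinearGroup.coe_neg, Matrix.neg_apply, hr]; push_cast; ring
  · rw [Matrix.SpecialLinearGroup.coe_neg, Matrix.neg_apply, hs]; push_cast; ring

theorem PK3 (h1 : MK1_stmt) (h2 : DEN_stmt) (h3 : RTN_stmt) (h4 : UNI_stmt) (h5 : HTD_stmt) : PK3_stmt := by
  classical
  intro x
  set S : Set PS := {g : PS | g ∈ GP h111 ∧ g • x ∈ A3} with hS
  rcases S.eq_empty_or_nonempty with hemp | ⟨g0, hg0, hg0x⟩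
  · rw [hemp]; simp
  -- representatives
  have key : ∀ g ∈ S, ∃ k ∈ GT h111, mk k = g * g0⁻¹ ∧ k 1 0 = 0 ∧
      (k 0 0 = 1 ∨ k 0 0 = tau 1 1 1 ∨ k 0 0 = 1 + tau 1 1 1) ∧ k • (g0 • x) ∈ A3 := by
    rintro g ⟨hg, hgx⟩
    have hk : g * g0⁻¹ ∈ GP h111 := mul_mem hg (inv_mem hg0)
    obtain ⟨k, hkG, hk⟩ := hk
    have hk' : mk k = g * g0⁻¹ := hk
    have hky : k • (g0 • x) = g • x := by
      rw [← mk_smul, hk', smul_smul, inv_mul_cancel_right]
    have hkA : k • (g0 • x) ∈ A3 := by rw [hky]; exact hgx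
    have hk0 : k 1 0 = 0 := h5 1 1 1 h111 A3 (fun y hy g hg hr => PK3_den y hy g hg hr) _ hg0x k hkG hkA
    have hdet : k 0 0 * k 1 1 = 1 := by
      have := k.det_coe
      rw [Matrix.det_fin_two, hk0, mul_zero, sub_zero] at this
      exact this
    have hneg : mk (-k) = g * g0⁻¹ := by rw [← hk']; exact (h1 (-k) k).2 (Or.inr rfl)
    have hnegA : (-k) • (g0 • x) ∈ A3 := by
      rw [← mk_smul, hneg, ← hk', mk_smul]; exact hkA
    have hneg00 : (-k) 0 0 = -(k 0 0) := by rw [Matrix.SpecialLinearGroup.coe_neg, Matrix.neg_apply]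
    have hneg10 : (-k) 1 0 = 0 := by rw [Matrix.SpecialLinearGroup.coe_neg, Matrix.neg_apply, hk0, neg_zero]
    rcases h4.2.2 _ hkG.1 _ hkG.2.2.2 hdet with h | h | h | h | h | h
    · exact ⟨k, hkG, hk', hk0, Or.inl h, hkA⟩
    · exact ⟨-k, PK3_neg k hkG, hneg, hneg10, Or.inl (by rw [hneg00, h, neg_neg]), hnegA⟩
    · exact ⟨k, hkG, hk', hk0, Or.inr (Or.inl h), hkA⟩
    · exact ⟨-k, PK3_neg k hkG, hneg, hneg10, Or.inr (Or.inl (by rw [hneg00, h, neg_neg])), hnegA⟩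
    · exact ⟨k, hkG, hk', hk0, Or.inr (Or.inr h), hkA⟩
    · exact ⟨-k, PK3_neg k hkG, hneg, hneg10, Or.inr (Or.inr (by rw [hneg00, h, neg_neg])), hnegA⟩
  choose! f hfG hfm hf0 hf00 hfA using key
  have hmaps : Set.MapsTo (fun g => (f g) 0 0) S (({1, tau 1 1 1, 1 + tau 1 1 1} : Finset ℂ) : Set ℂ) := by
    intro g hg
    rcases hf00 g hg with h | h | h <;> simp [h]
  have hinj : Set.InjOn (fun g => (f g) 0 0) S := by
    intro g hg g' hg' heq
    have heq' : (f g) 0 0 = (f g') 0 0 := heq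
    have hdet : ∀ k : SL, k 1 0 = 0 → k 0 0 * k 1 1 = 1 := by
      intro k hk0
      have := k.det_coe
      rw [Matrix.det_fin_two, hk0, mul_zero, sub_zero] at this
      exact this
    have hd1 := hdet _ (hf0 g hg)
    have hd2 := hdet _ (hf0 g' hg')
    have hp0 : (f g) 0 0 ≠ 0 := fun h0 => by rw [h0, zero_mul] at hd1; exact zero_ne_one hd1
    have h11 : (f g) 1 1 = (f g') 1 1 := by
      apply mul_left_cancel₀ hp0
      rw [hd1, heq', hd2]
    have hA1 := hfA g hg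
    have hA2 := hfA g' hg'
    obtain ⟨⟨a1, a2, a3, a4⟩, -⟩ := hA1
    obtain ⟨⟨b1, b2, b3, b4⟩, -⟩ := hA2
    rw [PK3_z _ _ (hf0 g hg)] at a1 a2 a3 a4
    rw [PK3_z _ _ (hf0 g' hg')] at b1 b2 b3 b4
    have hq : ∀ w : ℂ, w ∈ Qt 1 1 1 → w ∈ Ot 1 1 1 := by
      rintro w ⟨m, n, rfl⟩
      exact ⟨m, n, by push_cast; ring⟩
    have hdiff : (f g) 0 0 * ((f g) 0 1 - (f g') 0 1) ∈ Ot 1 1 1 := by
      apply PK3_mul _ _ (hfG g hg).1
      obtain ⟨m, n, e1⟩ := hq _ (hfG g hg).2.1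
      obtain ⟨m', n', e2⟩ := hq _ (hfG g' hg').2.1
      rw [e1, e2]
      exact ⟨m - m', n - n', by push_cast; ring⟩
    have he : (f g) 0 0 * ((f g) 0 1 - (f g') 0 1) = ((f g) 0 0 * (g0 • x).z + (f g) 0 1) * (f g) 0 0 -
        ((f g') 0 0 * (g0 • x).z + (f g') 0 1) * (f g') 0 0 := by
      rw [← heq']; ring
    have h0 : (f g) 0 0 * ((f g) 0 1 - (f g') 0 1) = 0 := by
      apply PK3_cell _ hdiff
      · rw [he, Complex.sub_re, abs_lt]
        constructor <;> linarith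
      · rw [he, Complex.sub_im, abs_lt]
        constructor <;> linarith
    have h01 : (f g) 0 1 = (f g') 0 1 := by
      rcases mul_eq_zero.1 h0 with h | h
      · exact (hp0 h).elim
      · exact sub_eq_zero.1 h
    have hff : f g = f g' := by
      apply Matrix.SpecialLinearGroup.ext
      intro i j
      fin_cases i <;> fin_cases j
      · exact heq'
      · exact h01
      · show (f g) 1 0 = (f g') 1 0
        rw [hf0 g hg, hf0 g' hg']
      · exact h11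
    have h12 : g * g0⁻¹ = g' * g0⁻¹ := by rw [← hfm g hg, ← hfm g' hg', hff]
    exact mul_right_cancel h12
  calc S.encard ≤ ((({1, tau 1 1 1, 1 + tau 1 1 1} : Finset ℂ) : Set ℂ)).encard :=
        Set.encard_le_encard_of_injOn hmaps hinj
    _ = (({1, tau 1 1 1, 1 + tau 1 1 1} : Finset ℂ).card : ENat) := Set.encard_coe_eq_coe_finsetCard _
    _ ≤ ((3 : ℕ) : ENat) := by exact_mod_cast Finset.card_le_three

end Pool.Agent.helper60.AVK
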